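import Pool.Agent.Q255.TQ.Stm

/-! Project TQ (helper255), job LSK (helper38): the mean square of the sums over squarefree
numbers. -/

set_option autoImplicit false

namespace Pool.Agent.Q38.TQ

open Finset Filter Topology MeasureTheory
open Pool.Agent.H306R2.RZ (js osf sqf)
open Pool.Agent.Q255.TQ

/-- the sum over all numbers -/
noncomputable def GG (ρ Z s l : ℕ) : ℝ :=
  ∑ m ∈ (Icc 1 Z).filter (fun m => m % 8 = ρ ∧ m.Coprime l), js m s

lemma card_osf (S : ℕ) : ((osf S).card : ℝ) ≤ S := by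
  have h : (osf S).card ≤ (Icc 1 S).card := card_filter_le _ _
  rw [Nat.card_Icc] at h
  have : (osf S).card ≤ S := by omega
  exact_mod_cast this

lemma card_sqf (S : ℕ) : ((sqf S).card : ℝ) ≤ S := by
  have h : (sqf S).card ≤ (Icc 1 S).card := card_filter_le _ _
  rw [Nat.card_Icc] at h
  have : (sqf S).card ≤ S := by omega
  exact_mod_cast this

lemma TT_zero (ρ s l : ℕ) : TT ρ 0 s l = 0 := by
  unfold TT sqf
  simp

/-- the large sieve for the sums `TT` -/
lemma hbd_TT {C δ : ℝ} (h : ∀ M N : ℕ, 1 ≤ M → 1 ≤ N → ∀ b : ℕ → ℝ,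
    ∑ s ∈ osf N, (∑ m ∈ sqf M, b m * js m s) ^ 2 ≤
      C * ((M : ℝ) * N) ^ δ * (M + N) * ∑ m ∈ sqf M, b m ^ 2) (hC : 0 < C)
    (ρ Z S l : ℕ) (hZ : 1 ≤ Z) (hS : 1 ≤ S) :
    ∑ s ∈ (osf S).filter (fun s => 3 ≤ s), TT ρ Z s l ^ 2 ≤
      C * ((Z : ℝ) * S) ^ δ * (Z + S) * Z := by
  have h1 := h Z S hZ hS (fun m => if m % 8 = ρ ∧ m.Coprime l then 1 else 0)
  have e1 : ∀ s, ∑ m ∈ sqf Z, (if m % 8 = ρ ∧ m.Coprime l then (1 : ℝ) else 0) * js m s =
      TT ρ Z s l := by
    intro s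
    unfold TT
    rw [sum_filter]
    refine sum_congr rfl fun m _ => ?_
    split_ifs <;> simp
  simp only [e1] at h1
  have h2 : ∑ m ∈ sqf Z, (if m % 8 = ρ ∧ m.Coprime l then (1 : ℝ) else 0) ^ 2 ≤ Z := by
    refine le_trans ?_ (card_sqf Z)
    rw [card_eq_sum_ones, Nat.cast_sum]
    refine sum_le_sum fun m _ => ?_
    split_ifs <;> simp
  calc ∑ s ∈ (osf S).filter (fun s => 3 ≤ s), TT ρ Z s l ^ 2 ≤ ∑ s ∈ osf S, TT ρ Z s l ^ 2 :=
        sum_le_sum_of_subset_of_nonneg (filter_subset _ _) fun s _ _ => sq_nonneg _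
    _ ≤ _ := h1
    _ ≤ _ := mul_le_mul_of_nonneg_left h2 (by positivity)

/-- logarithms are small -/
lemma log_small {ε : ℝ} (hε : 0 < ε) {X : ℕ} (hX : 1 ≤ X) :
    1 + Real.log X ≤ (1 + 1 / ε) * (X : ℝ) ^ ε := by
  have hx : (1 : ℝ) ≤ X := by exact_mod_cast hX
  have h1 := Real.log_le_rpow_div (by positivity : (0 : ℝ) ≤ X) hε
  have h2 : (1 : ℝ) ≤ (X : ℝ) ^ ε := Real.one_le_rpow hx hε.le
  have h3 : (1 + 1 / ε) * (X : ℝ) ^ ε = (X : ℝ) ^ ε + (X : ℝ) ^ ε / ε := by ring
  rw [h3]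
  linarith

lemma log0 (X : ℕ) : 0 ≤ Real.log (X : ℝ) := Real.log_natCast_nonneg X

/-- harmonic sums -/
lemma harm (X : ℕ) : ∑ a ∈ Icc 1 X, 1 / (a : ℝ) ≤ 1 + Real.log X := by
  have h := harmonic_le_one_add_log X
  rw [harmonic_eq_sum_Icc] at h
  push_cast at h
  simpa only [one_div] using h

theorem lsk (hP : S_PVI) (hH : S_HBD) (hQ : S_SQM) (hD : S_DIV) : S_LSK := by
  intro A δ hδ
  have hA1 : (0 : ℝ) < A + 1 := by positivity
  obtain ⟨C1, hC1, hb1⟩ := hH (δ / (A + 1)) (by positivity)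
  obtain ⟨C2, hC2, hb2⟩ := hH (δ / 4) (by positivity)
  obtain ⟨C3, hC3, hdv⟩ := hD (δ / (4 * (A + 1))) (by positivity)
  set K : ℝ := 1 + 1 / (δ / 8) with hK
  have hK1 : 1 ≤ K := by
    rw [hK]
    have : 0 ≤ 1 / (δ / 8) := by positivity
    linarith
  refine ⟨2 * C1 + (2 * (100 ^ 2 * C3 ^ 2 * K ^ 2) + 2 * (5 * C2 * K ^ 4)), by positivity, ?_⟩
  intro X Y S l ρ hX hYX hS hSX hl hlX hρ
  have hx : (1 : ℝ) ≤ X := by exact_mod_cast hX
  have hx0 : (0 : ℝ) < X := by linarith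
  have hs : (1 : ℝ) ≤ S := by exact_mod_cast hS
  have hs0 : (0 : ℝ) < S := by linarith
  have hyx : (Y : ℝ) ≤ X := by exact_mod_cast hYX
  have hy0 : (0 : ℝ) ≤ Y := by positivity
  have hXδ : (X : ℝ) ^ (1 + δ) = X * (X : ℝ) ^ δ := by
    rw [Real.rpow_add hx0, Real.rpow_one]
  have hXδ1 : 1 ≤ (X : ℝ) ^ δ := Real.one_le_rpow hx hδ.le
  rcases le_or_gt X S with hc | hc
  · -- large `S`
    have hxs : (X : ℝ) ≤ S := by exact_mod_cast hc
    have hmain : ∑ s ∈ (osf S).filter (fun s => 3 ≤ s), TT ρ Y s l ^ 2 ≤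
        2 * C1 * (X : ℝ) ^ (1 + δ) * S := by
      rcases Nat.eq_zero_or_pos Y with hY | hY
      · subst hY
        simp only [TT_zero]
        simp only [ne_eq, OfNat.ofNat_ne_zero, not_false_eq_true, zero_pow, sum_const_zero]
        positivity
      · refine (hbd_TT hb1 hC1 ρ Y S l hY hS).trans ?_
        have h1 : ((Y : ℝ) * S) ^ (δ / (A + 1)) ≤ (X : ℝ) ^ δ := by
          have h2 : (Y : ℝ) * S ≤ (X : ℝ) ^ ((A : ℝ) + 1) := by
            have h3 : (S : ℝ) ≤ (X : ℝ) ^ A := by exact_mod_cast hSX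
            rw [Real.rpow_add hx0, Real.rpow_natCast, Real.rpow_one, mul_comm]
            exact mul_le_mul h3 hyx hy0 (by positivity)
          calc ((Y : ℝ) * S) ^ (δ / (A + 1)) ≤ ((X : ℝ) ^ ((A : ℝ) + 1)) ^ (δ / (A + 1)) :=
                Real.rpow_le_rpow (by positivity) h2 (by positivity)
            _ = (X : ℝ) ^ δ := by
                rw [← Real.rpow_mul hx0.le]
                congr 1
                field_simp
        have h3 : ((Y : ℝ) + S) * Y ≤ 2 * S * X :=
          mul_le_mul (by linarith) hyx hy0 (by positivity)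
        calc C1 * ((Y : ℝ) * S) ^ (δ / (A + 1)) * (Y + S) * Y =
              C1 * (((Y : ℝ) * S) ^ (δ / (A + 1)) * ((Y + S) * Y)) := by ring
          _ ≤ C1 * ((X : ℝ) ^ δ * (2 * S * X)) :=
              mul_le_mul_of_nonneg_left (mul_le_mul h1 h3 (by positivity) (by positivity)) hC1.le
          _ = _ := by rw [hXδ]; ring
    refine hmain.trans ?_
    apply mul_le_mul_of_nonneg_right _ hs0.le
    apply mul_le_mul_of_nonneg_right _ (by positivity)
    have : 0 ≤ 2 * (100 ^ 2 * C3 ^ 2 * K ^ 2) + 2 * (5 * C2 * K ^ 4) := by positivity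
    linarith
  · -- small `S`
    have hsx : (S : ℝ) ≤ X := by exact_mod_cast hc.le
    set A0 : ℕ := Nat.sqrt (X / S) with hA0
    have hXS1 : 1 ≤ X / S := (Nat.one_le_div_iff (by omega)).2 hc.le
    have hA01 : 1 ≤ A0 := by
      rw [hA0, Nat.le_sqrt]
      simpa using hXS1
    have ha0 : (1 : ℝ) ≤ A0 := by exact_mod_cast hA01
    have hA0le : (A0 : ℝ) ^ 2 * S ≤ X := by
      have h1 : A0 * A0 ≤ X / S := Nat.sqrt_le (X / S)
      have h2 : A0 * A0 * S ≤ X := (Nat.mul_le_mul_right S h1).trans (Nat.div_mul_le_self X S)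
      have h3 : ((A0 * A0 * S : ℕ) : ℝ) ≤ X := by exact_mod_cast h2
      push_cast at h3
      nlinarith
    have hA0ge : (X : ℝ) ≤ 4 * S * (A0 : ℝ) ^ 2 := by
      have h1 : X / S < (A0 + 1) * (A0 + 1) := Nat.lt_succ_sqrt (X / S)
      have h2 : X < (A0 + 1) * (A0 + 1) * S := by
        rw [Nat.div_lt_iff_lt_mul (by omega)] at h1
        exact h1
      have h3 : (X : ℝ) < (A0 + 1) * (A0 + 1) * S := by exact_mod_cast h2
      nlinarith [mul_nonneg (sub_nonneg.2 ha0) (sub_nonneg.2 ha0)]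
    have hτ : (l.divisors.card : ℝ) ^ 2 ≤ C3 ^ 2 * (X : ℝ) ^ (δ / 2) := by
      have h1 := hdv l hl
      have h2 : (l : ℝ) ^ (δ / (4 * (A + 1))) ≤ (X : ℝ) ^ (δ / 4) := by
        have h3 : (l : ℝ) ≤ (X : ℝ) ^ ((A : ℝ) + 1) := by
          have h4 : (l : ℝ) ≤ (X : ℝ) ^ A := by exact_mod_cast hlX
          rw [Real.rpow_add hx0, Real.rpow_natCast, Real.rpow_one]
          have : (0 : ℝ) ≤ (X : ℝ) ^ A := by positivity
          nlinarith
        calc (l : ℝ) ^ (δ / (4 * (A + 1))) ≤ ((X : ℝ) ^ ((A : ℝ) + 1)) ^ (δ / (4 * (A + 1))) :=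
              Real.rpow_le_rpow (by positivity) h3 (by positivity)
          _ = (X : ℝ) ^ (δ / 4) := by
              rw [← Real.rpow_mul hx0.le]
              congr 1
              field_simp
      have h3 : (l.divisors.card : ℝ) ≤ C3 * (X : ℝ) ^ (δ / 4) :=
        h1.trans (mul_le_mul_of_nonneg_left h2 (by linarith))
      calc (l.divisors.card : ℝ) ^ 2 ≤ (C3 * (X : ℝ) ^ (δ / 4)) ^ 2 :=
            pow_le_pow_left₀ (by positivity) h3 2
        _ = C3 ^ 2 * (X : ℝ) ^ (δ / 2) := by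
            rw [mul_pow, ← Real.rpow_natCast ((X : ℝ) ^ (δ / 4)) 2, ← Real.rpow_mul hx0.le]
            congr 2
            push_cast
            ring
    have hL : 1 + Real.log X ≤ K * (X : ℝ) ^ (δ / 8) := log_small (by positivity) hX
    have hL0 : 0 ≤ 1 + Real.log (X : ℝ) := by linarith [log0 X]
    have hL2 : (1 + Real.log X) ^ 2 ≤ K ^ 2 * (X : ℝ) ^ (δ / 2) := by
      calc (1 + Real.log X) ^ 2 ≤ (K * (X : ℝ) ^ (δ / 8)) ^ 2 := pow_le_pow_left₀ hL0 hL 2
        _ = K ^ 2 * (X : ℝ) ^ (δ / 4) := by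
            rw [mul_pow, ← Real.rpow_natCast ((X : ℝ) ^ (δ / 8)) 2, ← Real.rpow_mul hx0.le]
            congr 2
            push_cast
            ring
        _ ≤ _ := mul_le_mul_of_nonneg_left
            (Real.rpow_le_rpow_of_exponent_le hx (by linarith)) (by positivity)
    have hL4 : (1 + Real.log X) ^ 4 ≤ K ^ 4 * (X : ℝ) ^ (δ / 2) := by
      calc (1 + Real.log X) ^ 4 ≤ (K * (X : ℝ) ^ (δ / 8)) ^ 4 := pow_le_pow_left₀ hL0 hL 4
        _ = K ^ 4 * (X : ℝ) ^ (δ / 2) := by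
            rw [mul_pow, ← Real.rpow_natCast ((X : ℝ) ^ (δ / 8)) 4, ← Real.rpow_mul hx0.le]
            congr 2
            push_cast
            ring
    have hXX : (X : ℝ) ^ (δ / 2) * (X : ℝ) ^ (δ / 2) = (X : ℝ) ^ δ := by
      rw [← Real.rpow_add hx0]
      congr 1
      ring
    -- the two parts
    set F : ℕ → Finset ℕ := fun s => (Icc 1 Y).filter (fun a => a.Coprime (2 * l * s)) with hF
    set T1 : ℕ → ℝ := fun s => ∑ a ∈ (F s).filter (fun a => a ≤ A0),
      ((ArithmeticFunction.moebius a : ℤ) : ℝ) * GG ρ (Y / a ^ 2) s l with hT1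
    set T2 : ℕ → ℝ := fun s => ∑ a ∈ (F s).filter (fun a => ¬ a ≤ A0),
      ((ArithmeticFunction.moebius a : ℤ) : ℝ) * GG ρ (Y / a ^ 2) s l with hT2
    have hTT : ∀ s, Odd s → TT ρ Y s l = T1 s + T2 s := by
      intro s ho
      rw [(hQ ρ hρ Y s l ho hl).1, hT1, hT2]
      exact (sum_filter_add_sum_filter_not (F s) (fun a => a ≤ A0) _).symm
    have hmu : ∀ a : ℕ, |((ArithmeticFunction.moebius a : ℤ) : ℝ)| ≤ 1 := by
      intro a
      have := ArithmeticFunction.abs_moebius_le_one (n := a)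
      exact_mod_cast this
    set B : ℝ := 100 * l.divisors.card * Real.sqrt S * (1 + Real.log X) with hB
    have hB0 : 0 ≤ B := by positivity
    have hT1b : ∀ s ∈ (osf S).filter (fun s => 3 ≤ s), T1 s ^ 2 ≤ ((A0 : ℝ) * B) ^ 2 := by
      intro s hs'
      rw [mem_filter] at hs'
      obtain ⟨hs1, hs3⟩ := hs'
      unfold osf at hs1
      rw [mem_filter, mem_Icc] at hs1
      obtain ⟨⟨hs11, hs12⟩, hso, hsq⟩ := hs1
      have hsS : (s : ℝ) ≤ S := by exact_mod_cast hs12
      have hs1r : (1 : ℝ) ≤ s := by exact_mod_cast hs11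
      have hGB : ∀ Z, |GG ρ Z s l| ≤ B := by
        intro Z
        refine (hP s hso hsq hs3 ρ Z l hl).trans ?_
        rw [hB]
        have h1 : Real.sqrt s ≤ Real.sqrt S := Real.sqrt_le_sqrt hsS
        have h2 : 1 + Real.log s ≤ 1 + Real.log X := by
          have := Real.log_le_log (by linarith) (hsS.trans hsx)
          linarith
        exact mul_le_mul (mul_le_mul_of_nonneg_left h1 (by positivity)) h2
          (by linarith [log0 s]) (by positivity)
      rw [← sq_abs]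
      apply pow_le_pow_left₀ (abs_nonneg _)
      refine (abs_sum_le_sum_abs _ _).trans ?_
      calc ∑ a ∈ (F s).filter (fun a => a ≤ A0),
            |((ArithmeticFunction.moebius a : ℤ) : ℝ) * GG ρ (Y / a ^ 2) s l| ≤
            ∑ a ∈ (F s).filter (fun a => a ≤ A0), B := by
            refine sum_le_sum fun a _ => ?_
            rw [abs_mul]
            calc |((ArithmeticFunction.moebius a : ℤ) : ℝ)| * |GG ρ (Y / a ^ 2) s l| ≤ 1 * B :=
                  mul_le_mul (hmu a) (hGB _) (abs_nonneg _) zero_le_one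
              _ = B := one_mul _
        _ = (((F s).filter (fun a => a ≤ A0)).card : ℝ) * B := by
            rw [sum_const, nsmul_eq_mul]
        _ ≤ A0 * B := by
            apply mul_le_mul_of_nonneg_right _ hB0
            have : ((F s).filter (fun a => a ≤ A0)).card ≤ (Icc 1 A0).card := by
              apply card_le_card
              intro a ha
              rw [mem_filter] at ha
              obtain ⟨ha1, ha2⟩ := ha
              rw [hF] at ha1
              simp only [mem_filter, mem_Icc] at ha1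
              exact mem_Icc.2 ⟨ha1.1.1, ha2⟩
            rw [Nat.card_Icc] at this
            have : ((F s).filter (fun a => a ≤ A0)).card ≤ A0 := by omega
            exact_mod_cast this
    have hsum1 : ∑ s ∈ (osf S).filter (fun s => 3 ≤ s), T1 s ^ 2 ≤
        100 ^ 2 * C3 ^ 2 * K ^ 2 * (X : ℝ) ^ (1 + δ) * S := by
      calc ∑ s ∈ (osf S).filter (fun s => 3 ≤ s), T1 s ^ 2 ≤
            ∑ s ∈ (osf S).filter (fun s => 3 ≤ s), ((A0 : ℝ) * B) ^ 2 := sum_le_sum hT1b
        _ = (((osf S).filter (fun s => 3 ≤ s)).card : ℝ) * ((A0 : ℝ) * B) ^ 2 := by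
            rw [sum_const, nsmul_eq_mul]
        _ ≤ S * ((A0 : ℝ) * B) ^ 2 := by
            apply mul_le_mul_of_nonneg_right _ (sq_nonneg _)
            refine le_trans ?_ (card_osf S)
            exact_mod_cast card_filter_le _ _
        _ = ((A0 : ℝ) ^ 2 * S) * (100 ^ 2 * (l.divisors.card : ℝ) ^ 2 * S * (1 + Real.log X) ^ 2) := by
            have : Real.sqrt S ^ 2 = S := Real.sq_sqrt hs0.le
            rw [hB]
            linear_combination (S : ℝ) * (A0 : ℝ) ^ 2 * 100 ^ 2 * (l.divisors.card : ℝ) ^ 2 *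
              (1 + Real.log X) ^ 2 * this
        _ ≤ X * (100 ^ 2 * (C3 ^ 2 * (X : ℝ) ^ (δ / 2)) * S * (K ^ 2 * (X : ℝ) ^ (δ / 2))) := by
            apply mul_le_mul hA0le _ (by positivity) hx0.le
            apply mul_le_mul _ hL2 (by positivity) (by positivity)
            apply mul_le_mul_of_nonneg_right _ hs0.le
            exact mul_le_mul_of_nonneg_left hτ (by positivity)
        _ = 100 ^ 2 * C3 ^ 2 * K ^ 2 * (X : ℝ) ^ (1 + δ) * S := by
            rw [hXδ, ← hXX]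
            ring
    -- the second part
    set Q : Finset (ℕ × ℕ) := ((Icc 1 X).filter (fun a => ¬ a ≤ A0)) ×ˢ Icc 1 X with hQdef
    have hT2b : ∀ s ∈ (osf S).filter (fun s => 3 ≤ s),
        |T2 s| ≤ ∑ p ∈ Q, |TT ρ (Y / p.1 ^ 2 / p.2 ^ 2) s l| := by
      intro s hs'
      rw [mem_filter] at hs'
      obtain ⟨hs1, hs3⟩ := hs'
      unfold osf at hs1
      rw [mem_filter, mem_Icc] at hs1
      obtain ⟨⟨hs11, hs12⟩, hso, hsq⟩ := hs1
      rw [hQdef, sum_product]
      refine (abs_sum_le_sum_abs _ _).trans ?_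
      calc ∑ a ∈ (F s).filter (fun a => ¬ a ≤ A0),
            |((ArithmeticFunction.moebius a : ℤ) : ℝ) * GG ρ (Y / a ^ 2) s l| ≤
            ∑ a ∈ (F s).filter (fun a => ¬ a ≤ A0),
              ∑ b ∈ Icc 1 X, |TT ρ (Y / a ^ 2 / b ^ 2) s l| := by
            refine sum_le_sum fun a _ => ?_
            rw [abs_mul]
            have h1 : |GG ρ (Y / a ^ 2) s l| ≤ ∑ b ∈ Icc 1 X, |TT ρ (Y / a ^ 2 / b ^ 2) s l| := by
              unfold GG
              rw [(hQ ρ hρ (Y / a ^ 2) s l hso hl).2]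
              refine (abs_sum_le_sum_abs _ _).trans ?_
              apply sum_le_sum_of_subset_of_nonneg
              · intro b hb
                rw [mem_filter, mem_Icc] at hb
                have : Y / a ^ 2 ≤ X := (Nat.div_le_self _ _).trans hYX
                exact mem_Icc.2 ⟨hb.1.1, hb.1.2.trans this⟩
              · exact fun b _ _ => abs_nonneg _
            calc |((ArithmeticFunction.moebius a : ℤ) : ℝ)| * |GG ρ (Y / a ^ 2) s l| ≤
                  1 * ∑ b ∈ Icc 1 X, |TT ρ (Y / a ^ 2 / b ^ 2) s l| :=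
                  mul_le_mul (hmu a) h1 (abs_nonneg _) zero_le_one
              _ = _ := one_mul _
        _ ≤ _ := by
            apply sum_le_sum_of_subset_of_nonneg
            · intro a ha
              rw [mem_filter] at ha
              obtain ⟨ha1, ha2⟩ := ha
              rw [hF] at ha1
              simp only [mem_filter, mem_Icc] at ha1
              exact mem_filter.2 ⟨mem_Icc.2 ⟨ha1.1.1, ha1.1.2.trans hYX⟩, ha2⟩
            · exact fun a _ _ => sum_nonneg fun b _ => abs_nonneg _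
    have hw : ∑ p ∈ Q, 1 / ((p.1 : ℝ) * p.2) ≤ (1 + Real.log X) ^ 2 := by
      rw [hQdef, sum_product]
      have e1 : ∀ a ∈ (Icc 1 X).filter (fun a => ¬ a ≤ A0), ∑ b ∈ Icc 1 X, 1 / ((a : ℝ) * b) =
          1 / (a : ℝ) * ∑ b ∈ Icc 1 X, 1 / (b : ℝ) := by
        intro a _
        rw [mul_sum]
        refine sum_congr rfl fun b _ => ?_
        rw [one_div_mul_one_div]
      rw [sum_congr rfl e1, ← sum_mul, sq]
      apply mul_le_mul _ (harm X) (sum_nonneg fun b _ => by positivity) hL0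
      exact (sum_le_sum_of_subset_of_nonneg (filter_subset _ _) fun a _ _ => by positivity).trans
        (harm X)
    have hterm : ∀ p ∈ Q, (p.1 : ℝ) * p.2 * ∑ s ∈ (osf S).filter (fun s => 3 ≤ s),
        |TT ρ (Y / p.1 ^ 2 / p.2 ^ 2) s l| ^ 2 ≤
          5 * C2 * (X : ℝ) ^ (δ / 2) * (S * X) * (1 / ((p.1 : ℝ) * p.2)) := by
      rintro ⟨a, b⟩ hp
      rw [hQdef, mem_product, mem_filter, mem_Icc, mem_Icc] at hp
      obtain ⟨⟨⟨ha1, ha2⟩, ha3⟩, hb1', hb2'⟩ := hp
      simp only at ha1 ha2 ha3 hb1' hb2' ⊢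
      have har : (1 : ℝ) ≤ a := by exact_mod_cast ha1
      have hbr : (1 : ℝ) ≤ b := by exact_mod_cast hb1'
      have hab : (1 : ℝ) ≤ a * b := by nlinarith
      have haA : (A0 : ℝ) ≤ a := by
        have : A0 ≤ a := by omega
        exact_mod_cast this
      have habA : (A0 : ℝ) ≤ a * b := by nlinarith
      simp only [sq_abs]
      set Z : ℕ := Y / a ^ 2 / b ^ 2 with hZ
      rcases Nat.eq_zero_or_pos Z with hZ0 | hZ0
      · rw [hZ0]
        simp only [TT_zero]
        simp only [ne_eq, OfNat.ofNat_ne_zero, not_false_eq_true, zero_pow, sum_const_zero, mul_zero]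
        positivity
      · have hZr : (Z : ℝ) ≤ X / ((a : ℝ) * b) ^ 2 := by
          have h1 : (Z : ℝ) ≤ ((Y / a ^ 2 : ℕ) : ℝ) / ((b ^ 2 : ℕ) : ℝ) := Nat.cast_div_le
          have h2 : ((Y / a ^ 2 : ℕ) : ℝ) ≤ (Y : ℝ) / ((a ^ 2 : ℕ) : ℝ) := Nat.cast_div_le
          push_cast at h1 h2
          calc (Z : ℝ) ≤ ((Y / a ^ 2 : ℕ) : ℝ) / (b : ℝ) ^ 2 := by push_cast; exact h1
            _ ≤ (Y : ℝ) / (a : ℝ) ^ 2 / (b : ℝ) ^ 2 := by
                apply div_le_div_of_nonneg_right _ (by positivity)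
                push_cast
                exact h2
            _ = (Y : ℝ) / ((a : ℝ) * b) ^ 2 := by rw [div_div, mul_pow]
            _ ≤ _ := div_le_div_of_nonneg_right hyx (by positivity)
        have hZX : (Z : ℝ) ≤ X := hZr.trans (div_le_self hx0.le (by nlinarith))
        have hZp : (0 : ℝ) < Z := by exact_mod_cast hZ0
        have h1 := hbd_TT hb2 hC2 ρ Z S l hZ0 hS
        have h2 : ((Z : ℝ) * S) ^ (δ / 4) ≤ (X : ℝ) ^ (δ / 2) := by
          calc ((Z : ℝ) * S) ^ (δ / 4) ≤ ((X : ℝ) * X) ^ (δ / 4) :=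
                Real.rpow_le_rpow (by positivity) (mul_le_mul hZX hsx hs0.le hx0.le) (by positivity)
            _ = (X : ℝ) ^ (δ / 2) := by
                rw [Real.mul_rpow hx0.le hx0.le, ← Real.rpow_add hx0]
                congr 1
                ring
        set t : ℝ := (a : ℝ) * b with ht
        have ht0 : 0 < t := by linarith
        have h3 : t * (((Z : ℝ) + S) * Z) ≤ 5 * (S * X) * (1 / t) := by
          have h4 : (Z : ℝ) * t ^ 2 ≤ X := by
            rwa [le_div_iff₀ (by positivity)] at hZr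
          have h5 : (Z : ℝ) ≤ 4 * S := by
            -- `X ≤ 4 S A0² ≤ 4 S t²`
            have h6 : (X : ℝ) ≤ 4 * S * t ^ 2 := by
              refine hA0ge.trans ?_
              apply mul_le_mul_of_nonneg_left _ (by positivity)
              exact pow_le_pow_left₀ (by positivity) habA 2
            have h7 : (Z : ℝ) * t ^ 2 ≤ 4 * S * t ^ 2 := h4.trans h6
            exact le_of_mul_le_mul_right h7 (by positivity)
          rw [mul_one_div, le_div_iff₀ ht0]
          calc t * (((Z : ℝ) + S) * Z) * t = ((Z : ℝ) + S) * (Z * t ^ 2) := by ring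
            _ ≤ (5 * S) * X := mul_le_mul (by linarith) h4 (by positivity) (by positivity)
            _ = 5 * (S * X) := by ring
        calc t * ∑ s ∈ (osf S).filter (fun s => 3 ≤ s), TT ρ Z s l ^ 2 ≤
              t * (C2 * ((Z : ℝ) * S) ^ (δ / 4) * (Z + S) * Z) :=
              mul_le_mul_of_nonneg_left h1 ht0.le
          _ = C2 * (((Z : ℝ) * S) ^ (δ / 4) * (t * (((Z : ℝ) + S) * Z))) := by ring
          _ ≤ C2 * ((X : ℝ) ^ (δ / 2) * (5 * (S * X) * (1 / t))) := by
              apply mul_le_mul_of_nonneg_left _ hC2.le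
              exact mul_le_mul h2 h3 (by positivity) (by positivity)
          _ = _ := by ring
    have hsum2 : ∑ s ∈ (osf S).filter (fun s => 3 ≤ s), T2 s ^ 2 ≤
        5 * C2 * K ^ 4 * (X : ℝ) ^ (1 + δ) * S := by
      have h1 : ∀ s ∈ (osf S).filter (fun s => 3 ≤ s), T2 s ^ 2 ≤
          (1 + Real.log X) ^ 2 * ∑ p ∈ Q, (p.1 : ℝ) * p.2 *
            |TT ρ (Y / p.1 ^ 2 / p.2 ^ 2) s l| ^ 2 := by
        intro s hs'
        have h2 : (∑ p ∈ Q, |TT ρ (Y / p.1 ^ 2 / p.2 ^ 2) s l|) ^ 2 ≤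
            (∑ p ∈ Q, 1 / ((p.1 : ℝ) * p.2)) * ∑ p ∈ Q, (p.1 : ℝ) * p.2 *
              |TT ρ (Y / p.1 ^ 2 / p.2 ^ 2) s l| ^ 2 := by
          apply sum_sq_le_sum_mul_sum_of_sq_eq_mul
          · intro p _
            positivity
          · intro p _
            positivity
          · rintro ⟨a, b⟩ hp
            rw [hQdef, mem_product, mem_filter, mem_Icc, mem_Icc] at hp
            obtain ⟨⟨⟨ha1, -⟩, -⟩, hb1', -⟩ := hp
            have har : (0 : ℝ) < a := by exact_mod_cast ha1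
            have hbr : (0 : ℝ) < b := by exact_mod_cast hb1'
            field_simp
        calc T2 s ^ 2 = |T2 s| ^ 2 := (sq_abs _).symm
          _ ≤ (∑ p ∈ Q, |TT ρ (Y / p.1 ^ 2 / p.2 ^ 2) s l|) ^ 2 :=
              pow_le_pow_left₀ (abs_nonneg _) (hT2b s hs') 2
          _ ≤ _ := h2
          _ ≤ _ := mul_le_mul_of_nonneg_right hw (sum_nonneg fun p _ => by positivity)
      calc ∑ s ∈ (osf S).filter (fun s => 3 ≤ s), T2 s ^ 2 ≤
            ∑ s ∈ (osf S).filter (fun s => 3 ≤ s), (1 + Real.log X) ^ 2 *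
              ∑ p ∈ Q, (p.1 : ℝ) * p.2 * |TT ρ (Y / p.1 ^ 2 / p.2 ^ 2) s l| ^ 2 :=
            sum_le_sum h1
        _ = (1 + Real.log X) ^ 2 * ∑ p ∈ Q, (p.1 : ℝ) * p.2 *
              ∑ s ∈ (osf S).filter (fun s => 3 ≤ s), |TT ρ (Y / p.1 ^ 2 / p.2 ^ 2) s l| ^ 2 := by
            rw [← mul_sum, sum_comm]
            congr 1
            refine sum_congr rfl fun p _ => ?_
            rw [mul_sum]
        _ ≤ (1 + Real.log X) ^ 2 * ∑ p ∈ Q,
              5 * C2 * (X : ℝ) ^ (δ / 2) * (S * X) * (1 / ((p.1 : ℝ) * p.2)) :=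
            mul_le_mul_of_nonneg_left (sum_le_sum hterm) (by positivity)
        _ = (1 + Real.log X) ^ 2 * (5 * C2 * (X : ℝ) ^ (δ / 2) * (S * X) *
              ∑ p ∈ Q, 1 / ((p.1 : ℝ) * p.2)) := by
            congr 1
            rw [mul_sum]
        _ ≤ (1 + Real.log X) ^ 2 * (5 * C2 * (X : ℝ) ^ (δ / 2) * (S * X) * (1 + Real.log X) ^ 2) := by
            apply mul_le_mul_of_nonneg_left _ (by positivity)
            exact mul_le_mul_of_nonneg_left hw (by positivity)
        _ = (1 + Real.log X) ^ 4 * (5 * C2 * (X : ℝ) ^ (δ / 2) * (S * X)) := by ring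
        _ ≤ K ^ 4 * (X : ℝ) ^ (δ / 2) * (5 * C2 * (X : ℝ) ^ (δ / 2) * (S * X)) :=
            mul_le_mul_of_nonneg_right hL4 (by positivity)
        _ = _ := by
            rw [hXδ, ← hXX]
            ring
    calc ∑ s ∈ (osf S).filter (fun s => 3 ≤ s), TT ρ Y s l ^ 2 ≤
          ∑ s ∈ (osf S).filter (fun s => 3 ≤ s), (2 * T1 s ^ 2 + 2 * T2 s ^ 2) := by
          refine sum_le_sum fun s hs' => ?_
          rw [mem_filter] at hs'
          obtain ⟨hs1, -⟩ := hs'
          unfold osf at hs1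
          rw [mem_filter] at hs1
          rw [hTT s hs1.2.1]
          nlinarith [sq_nonneg (T1 s - T2 s)]
      _ = 2 * ∑ s ∈ (osf S).filter (fun s => 3 ≤ s), T1 s ^ 2 +
          2 * ∑ s ∈ (osf S).filter (fun s => 3 ≤ s), T2 s ^ 2 := by
          rw [sum_add_distrib, mul_sum, mul_sum]
      _ ≤ 2 * (100 ^ 2 * C3 ^ 2 * K ^ 2 * (X : ℝ) ^ (1 + δ) * S) +
          2 * (5 * C2 * K ^ 4 * (X : ℝ) ^ (1 + δ) * S) := by linarith
      _ = (2 * (100 ^ 2 * C3 ^ 2 * K ^ 2) + 2 * (5 * C2 * K ^ 4)) * (X : ℝ) ^ (1 + δ) * S := by ring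
      _ ≤ _ := by
          apply mul_le_mul_of_nonneg_right _ hs0.le
          apply mul_le_mul_of_nonneg_right _ (by positivity)
          linarith

end Pool.Agent.Q38.TQ
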